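import Pool.Agent.N600.G3.Core

/-!
# MP_d69e80_al: an absolute growth gap for the groups of derived length three that are not polycyclic

Let `S` be a finite symmetric generating set of an arbitrary group `G` and let `H` be a subgroup of
index at most `d`.  We prove that either `ρ_S ≥ (log 2) / (88 (2 d - 1))` or all subgroups of
`H / H'''` are finitely generated; and in the latter case all subgroups of `G` are finitely generated
if `H''` is nilpotent.  (A solvable group all of whose subgroups are finitely generated is
polycyclic.)

Idea of the proof.  We may assume that `H = G` and `G''' = 1`.  If the growth is small then all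
subgroups of `G / G''` are finitely generated and `G'` is finitely generated (known).  If `G''` is
not finitely generated then `M = G'` acts by affine maps `y ↦ χ(m) y + b(m)` on a valued field `F`,
where a short commutator `c` fixes `0` and acts as a hyperbolic element, but not all of `M` fixes
`0`.  As `M` is generated by the conjugates of short commutators, there is a shortest word `g`
(with `K` letters) such that `g d g⁻¹` moves `0` for a short commutator `d`.  The prefixes of `g`
give `K` affine lines on which conjugates of `c` and `d` along `g` act in a triangular way.  By
telescoping, products of `K` such conjugates have length `O(K)`, and a chain rule for entropies over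
all the lines, with subset sums of elements of distinct valuation and a second moment bound for the
multiplicative noise, gives `2 ^ (K R / 4)` different elements of length `22 K R`.
-/

namespace Pool.Agent.Results.MP_d69e80_al.DerivedLengthThree

open Filter Topology
open scoped Pointwise

universe u

/-- The exponential growth rate `ρ_S = lim (1/n) log |S ^ n|`, where `S ^ n` is the set of all
products of `n` elements of `S` (pointwise power of sets). -/
noncomputable def rho {G : Type*} [Group G] (S : Set G) : ℝ :=
  limUnder atTop (fun n : ℕ => Real.log (Nat.card ↥(S ^ n)) / n)

/-- Let `S` be a finite symmetric generating set of a group `G` and `H` a subgroup of index at most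
`d`.  The limit `ρ_S` exists.  Either `ρ_S ≥ (log 2) / (88 (2 d - 1))`, or all subgroups of
`H / H'''` are finitely generated, and moreover all subgroups of `G` are finitely generated if `H''`
is nilpotent. -/
theorem result {G : Type u} [Group G] (S : Set G) (hfin : S.Finite) (hsym : S⁻¹ = S)
    (hgen : Subgroup.closure S = ⊤) :
    Tendsto (fun n : ℕ => Real.log (Nat.card ↥(S ^ n)) / n) atTop (𝓝 (rho S)) ∧
    ∀ (H : Subgroup G) (d : ℕ), H.index ≠ 0 → H.index ≤ d →
      Real.log 2 / (88 * (2 * d - 1)) ≤ rho S ∨
        ((∀ K : Subgroup (H ⧸ derivedSeries H 3), K.FG) ∧
          (Group.IsNilpotent (derivedSeries H 2) → ∀ K : Subgroup G, K.FG)) := by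
  refine ⟨Pool.Agent.H746UG.tendsto_rho S, ?_⟩
  intro H d hH hd
  exact Pool.Agent.N600.G3.final S hfin hsym hgen H d hH hd

end Pool.Agent.Results.MP_d69e80_al.DerivedLengthThree
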