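import Mathlib
import Pool.Agent.N600.L3.Main

/-!
# Derived length three: growth and Mahler measures, without a factor depending on the rank

Let `S` be a finite symmetric generating set of an arbitrary group `G` and `H` a subgroup of index at
most `d`.  Either `ρ_S ≥ log 2 / (88 (2 d - 1))`, or
`ρ_S ≥ min (1, log M(x)) / (704 (2 d - 1))` for an algebraic unit `x`, not a root of unity, which is an
eigenvalue of an element of `H` on `H'/H''` or of an element of `H'` on `H''/H'''`, or the two
metabelian groups `H/H''` and `H'/H'''` are virtually nilpotent.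

So Lehmer's conjecture implies an absolute growth gap for all solvable groups `G` of derived length
three for which `G'` or `G/G''` is not virtually nilpotent, and by Dobrowolski's theorem
`ρ_S ≥ c / (log (2 m)) ^ 3` for these groups if the ranks of `G'/G''` and `G''/G'''` are at most `m`.
(The known lower bounds for derived length three have another factor `1/m`.)

Proof.  `M = G'` acts on `N = G''/G'''` through commuting operators; if `M/N'` is polycyclic and not
virtually nilpotent there is an eigenfunction `f : N → ℂ`, with character `χ`, and a short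
commutator `c` (a conjugate of one, on which `χ` is conjugated, too) such that `χ(c)` is not a root of
unity, and `b(m) = f([c, m])` is a crossed homomorphism.  Along a shortest word with `b ≠ 0` on a
conjugate of a short commutator one finds `K` lines, that is, conjugates `(χ_k, b_k)` of `(χ, b)`,
and elements `d_k` such that all products of the `d_k` are words of length `O(K)` and `b_i(d_k) = 0`
for `i < k`, `b_k(d_k) ≠ 0`, and a word `U` of length `O(K)` with `b_k(U) = 0` for all `k` and such
that `u_k = χ_k(U)` is not a root of unity for half of the `k`.  The products of `R` conjugates of `U`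
by products of the `d_k` take on the line `k` the values `∑ u_k ^ r σ_r δ_r`, where the units `σ_r`
(noise) depend on the other digits.  The average over the noise of the probability of a coincidence is
at most the probability of a coincidence for digits `0, 1, -1` with probabilities `3/4, 1/8, 1/8`
without noise: this is seen by Fourier analysis on a finite quotient of the ring of the values, whose
Haar measure is invariant under units, and Jensen's inequality.  Without noise Gaussian weights
(starting file `W963/GE/Count`) give the bound `((3 + exp (-(1 - M(u)^(-2)))) / 4) ^ R`.  The chain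
rule for fibres gives the theorem.

Lean proof by several seats: helper600 (author), 31, 40, 49, 79, 80, 123, 136, 216, 401, 426, 433,
527, 572, 622, 624, 711 (this project) and 99, 221, 405, 454, 488, 499, 558, 693, 700, 713, 768, 787,
833, 918 (project G3).
-/

set_option autoImplicit false

namespace Pool.Agent.Results.MP_d69e80_al.MahlerBoundDerivedLengthThree

open Filter Topology Polynomial
open scoped Pointwise

universe u

/-- Conjugation by `t` on the abelianization `N^ab` (written additively) of a normal subgroup `N`,
as an endomorphism of the abelian group `N^ab`. -/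
noncomputable def conjAb {G : Type*} [Group G] (N : Subgroup G) [N.Normal] (t : G) :
    Module.End ℤ (Additive (Abelianization N)) :=
  (MonoidHom.toAdditive
    (Abelianization.map (MulAut.conjNormal t : N ≃* N).toMonoidHom)).toIntLinearMap

/-- `z` is an eigenvalue of `t` on `N^ab`: a common zero of all the polynomials `p ∈ ℤ[X]` such that
`p(t) = 0` on `N^ab`. -/
def EigenvalueOn {H : Type*} [Group H] (N : Subgroup H) [N.Normal] (t : H) (z : ℂ) : Prop :=
  ∀ p : ℤ[X], aeval (conjAb N t) p = 0 → aeval z p = 0

/-- The Mahler measure of (the minimal polynomial over `ℤ` of) an algebraic integer. -/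
noncomputable def mahler (x : ℂ) : ℝ := ((minpoly ℤ x).map (Int.castRingHom ℂ)).mahlerMeasure

/-- `x` is an algebraic unit and not a root of unity. -/
def UnitNotRoot (x : ℂ) : Prop :=
  x ≠ 0 ∧ IsIntegral ℤ x ∧ IsIntegral ℤ x⁻¹ ∧ ∀ n > 0, x ^ n ≠ 1

/-- The torsion-free rank of `N^ab` is at most `m`. -/
def RankLE {H : Type u} [Group H] (N : Subgroup H) (m : ℕ) : Prop :=
  Module.rank ℤ (Additive (Abelianization N)) ≤ (m : Cardinal.{u})

/-- `X/X''` is virtually nilpotent. -/
def MetVN (X : Type*) [Group X] : Prop := Group.IsVirtuallyNilpotent (X ⧸ derivedSeries X 2)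

/-- `H/H''` and `H'/H'''` are virtually nilpotent (and `H'` is virtually nilpotent if `H''` is
nilpotent). -/
def Exceptional (H : Type*) [Group H] : Prop :=
  MetVN H ∧ MetVN (commutator H) ∧
    (Group.IsNilpotent (derivedSeries H 2) → Group.IsVirtuallyNilpotent (commutator H))

/-- `x` is an eigenvalue of an element of `H` on `H'/H''` or of an element of `H'` on `H''/H'''`. -/
def Eigen (H : Type*) [Group H] (x : ℂ) : Prop :=
  (∃ t : H, EigenvalueOn (derivedSeries H 1) t x) ∨
    ∃ t ∈ commutator H, EigenvalueOn (derivedSeries H 2) t x

/-- The bound by `log 2`, or by the Mahler measure of an eigenvalue of an element of `H` on `H'/H''`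
or of an element of `H'` on `H''/H'''`. -/
def Bound (H : Type*) [Group H] (d : ℕ) (ρ : ℝ) : Prop :=
  Real.log 2 / (88 * (2 * d - 1)) ≤ ρ ∨
    ∃ x : ℂ, UnitNotRoot x ∧ Eigen H x ∧
      min 1 (Real.log (mahler x)) / (704 * (2 * d - 1)) ≤ ρ

/-- The bound by the ranks of `H'/H''` and `H''/H'''`. -/
def RankBound (c : ℝ) (H : Type u) [Group H] (d : ℕ) (ρ : ℝ) : Prop :=
  ∀ m : ℕ, RankLE (derivedSeries H 1) m → RankLE (derivedSeries H 2) m →
    c / (d * Real.log (2 * m) ^ 3) ≤ ρ

/-- There is an absolute `c > 0` such that: for every group `G`, every finite symmetric generating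
set `S` of `G` and every subgroup `H` of index at most `d` the growth rate `ρ` of `S` exists, and
either `H/H''` and `H'/H'''` are virtually nilpotent, or `Bound H d ρ` holds, and moreover
`ρ ≥ c / (d (log 2m)^3)` for every upper bound `m` for the (torsion-free) ranks of `H'/H''` and
`H''/H'''`. -/
theorem result :
    ∃ c : ℝ, 0 < c ∧
      ∀ (G : Type u) [Group G] (S : Set G) (H : Subgroup G) (d : ℕ), S.Finite → S⁻¹ = S →
      Subgroup.closure S = ⊤ → H.index ≠ 0 → H.index ≤ d →
      ∃ ρ : ℝ, Tendsto (fun n : ℕ => Real.log (Nat.card ↥(S ^ n)) / n) atTop (𝓝 ρ) ∧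
        (Exceptional H ∨ (Bound H d ρ ∧ RankBound c H d ρ)) := by
  obtain ⟨c, hc, h⟩ := N600.L3.final.{u}
  refine ⟨c, hc, fun G _ S H d h1 h2 h3 h4 h5 => ⟨H746UG.rho S, H746UG.tendsto_rho S, ?_⟩⟩
  rcases h G S H d h1 h2 h3 h4 h5 with h6 | ⟨h6 | ⟨x, t, h7, h8 | h8, h9⟩, h10⟩
  · exact Or.inl h6
  · exact Or.inr ⟨Or.inl h6, h10⟩
  · exact Or.inr ⟨Or.inr ⟨x, h7, Or.inl ⟨t, h8⟩, h9⟩, h10⟩
  · exact Or.inr ⟨Or.inr ⟨x, h7, Or.inr ⟨t, h8⟩, h9⟩, h10⟩

end Pool.Agent.Results.MP_d69e80_al.MahlerBoundDerivedLengthThree
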