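import Mathlib
import Pool.Agent.N772.GG.Fin

/-!
# The growth rate and the Mahler measure of the whole spectrum of an element at a vector

Let `N` be a normal subgroup of a subgroup `H` of a group `G = ⟨S⟩`, let `t ∈ H`, `c ∈ N`.  The
eigenvalues of `t` at `c` are the common zeros of the polynomials `p ∈ ℤ[X]` for which `p(t)`, `t`
acting on `N^ab` by conjugation, annihilates the class of `c`.  The results of the starting files on
the question use one eigenvalue (with its conjugates) at a time.  Here all the eigenvalues at `c` are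
used at once: if `t` and `t c` are products of at most `j` elements of `S`, then
`3 j ρ_S ≥ min (1/2, log ∏ max (1, |z|))`, where `z` runs through the different eigenvalues at `c`.

So only those groups are critical for the question for which the product of the (different)
irreducible factors of the annihilators of short vectors has a small Mahler measure.  By Dobrowolski's
theorem, `j ρ_S ≥ c₀ min (1, ∑ 1 / (log (2 deg f)) ^ 3)`, the sum being over the different
noncyclotomic irreducible factors `f`.  If `G` is not virtually nilpotent then, in the situation of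
the starting results, `ρ_S` is not small or a pair `(t, t c)` with a nontrivial eigenvalue at `c`
exists with a bounded `j`.  In a subgroup generated by two short elements `x`, `y` the eigenvalues
at `(y x)⁻¹ x y` are all the eigenvalues on the abelianization of its derived subgroup.
-/

set_option autoImplicit false

namespace Pool.Agent.Results.MP_d69e80_al.WholeSpectrum

open Filter Topology Polynomial
open scoped Pointwise commutatorElement TensorProduct

universe u

/-- The term `γ_{k+1}(G)` of the lower central series (so `k = 1` gives `G'`). -/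
abbrev gamma (G : Type*) [Group G] (k : ℕ) : Subgroup G := (⊤ : Subgroup G).lowerCentralSeries k

/-- Conjugation by `t` on the abelianization `N^ab` (written additively) of a normal subgroup `N`,
as an endomorphism of the abelian group `N^ab`. -/
noncomputable def conjAb {G : Type*} [Group G] (N : Subgroup G) [N.Normal] (t : G) :
    Module.End ℤ (Additive (Abelianization N)) :=
  (MonoidHom.toAdditive
    (Abelianization.map (MulAut.conjNormal t : N ≃* N).toMonoidHom)).toIntLinearMap

/-- `z` is an eigenvalue of `t` at the class of `c` in `N^ab`: a common zero of all the polynomials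
`p ∈ ℤ[X]` such that `p(t)` annihilates this class. -/
def EigenvalueAt {H : Type*} [Group H] (N : Subgroup H) [N.Normal] (t : H) (c : N) (z : ℂ) : Prop :=
  ∀ p : ℤ[X], (aeval (conjAb N t) p) (Additive.ofMul (Abelianization.of c)) = 0 → aeval z p = 0

/-- `z` is not zero and not a root of unity. -/
def Nontriv (z : ℂ) : Prop := z ≠ 0 ∧ ∀ m : ℕ, 0 < m → z ^ m ≠ 1

/-- The product of the numbers `max (1, |z|)` over the different eigenvalues `z` of `t` at `c` (and
`1` if infinitely many of these have absolute value greater than `1`). -/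
noncomputable def mahlerAt {H : Type*} [Group H] (N : Subgroup H) [N.Normal] (t : H) (c : N) : ℝ :=
  ∏ᶠ z ∈ {z : ℂ | EigenvalueAt N t c z}, max 1 ‖z‖

/-- The sum of `1 / (deg z (log (2 deg z)) ^ 3)` over the different nontrivial eigenvalues of `t` at
`c`, that is, the sum of `1 / (log (2 deg f)) ^ 3` over their different minimal polynomials `f`. -/
noncomputable def weight {H : Type*} [Group H] (N : Subgroup H) [N.Normal] (t : H) (c : N) : ℝ :=
  ∑ᶠ z ∈ {z : ℂ | EigenvalueAt N t c z ∧ Nontriv z},
    1 / ((minpoly ℤ z).natDegree * Real.log (2 * (minpoly ℤ z).natDegree) ^ 3)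

/-- `t` and `t c` are products of at most `j` elements of `S`. -/
def ShortPair {G : Type*} [Group G] (S : Set G) (H : Subgroup G) (N : Subgroup H) (j : ℕ)
    (t : H) (c : N) : Prop :=
  (t : G) ∈ (insert 1 S) ^ j ∧ ((t * (c : H) : H) : G) ∈ (insert 1 S) ^ j

/-- `S` generates `G`, the subgroup `H` has index at most `d`, and `Γ = γ_{k+1}(H)` is nilpotent or
`H / [Γ, Γ]` is not virtually nilpotent. -/
def Setting (k d : ℕ) {G : Type*} [Group G] (S : Set G) (H : Subgroup G) : Prop :=
  1 ≤ k ∧ Subgroup.closure S = ⊤ ∧ H.index ≠ 0 ∧ H.index ≤ d ∧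
    (Group.IsNilpotent (gamma H k) ∨ ¬ Group.IsVirtuallyNilpotent (H ⧸ ⁅gamma H k, gamma H k⁆))

/-- The product of `max (1, |z|)` over the different eigenvalues `z` of `t` on `ℂ ⊗ N^ab`. -/
noncomputable def mahlerRad {H : Type*} [Group H] (N : Subgroup H) [N.Normal] (t : H) : ℝ :=
  ∏ᶠ z ∈ {z : ℂ | Module.End.HasEigenvalue (LinearMap.baseChange ℂ (conjAb N t) :
    Module.End ℂ (ℂ ⊗[ℤ] Additive (Abelianization N))) z}, max 1 ‖z‖

/-- (1) The lower bounds for `ρ` given by one pair. -/
def PairBounds (c₀ : ℝ) {G : Type*} [Group G] (S : Set G) (ρ : ℝ) : Prop :=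
  ∀ (H : Subgroup G) (N : Subgroup H) [N.Normal] (j : ℕ) (t : H) (c : N), ShortPair S H N j t c →
    min (1 / 2) (Real.log (mahlerAt N t c)) ≤ 3 * j * ρ ∧
    (Module.Finite ℤ (Additive (Abelianization N)) → c₀ * min 1 (weight N t c) ≤ j * ρ)

/-- (2) The existence of a short pair with a nontrivial eigenvalue, with `j = 2^(k+1) (2d - 1)`. -/
def PairExists {G : Type*} [Group G] (S : Set G) (ρ : ℝ) : Prop :=
  ∀ (k d : ℕ) (H : Subgroup G), Setting k d S H →
    Group.IsVirtuallyNilpotent G ∨ Real.log 2 / (2 ^ (k + 1) * (2 * d - 1)) ≤ ρ ∨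
    (Module.Finite ℤ (Additive (Abelianization (gamma H k))) ∧
      ∃ (t : H) (c : gamma H k), ShortPair S H (gamma H k) (2 ^ (k + 1) * (2 * d - 1)) t c ∧
        ∃ z : ℂ, Nontriv z ∧ EigenvalueAt (gamma H k) t c z)

/-- (3) The uniform gap if all the short pairs with a nontrivial eigenvalue have weight at least
`κ`. -/
def UniformGap (c₀ : ℝ) {G : Type*} [Group G] (S : Set G) (ρ : ℝ) : Prop :=
  ∀ (k d : ℕ) (H : Subgroup G) (κ : ℝ), Setting k d S H →
    (∀ (t : H) (c : gamma H k), ShortPair S H (gamma H k) (2 ^ (k + 1) * (2 * d - 1)) t c →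
      (∃ z : ℂ, Nontriv z ∧ EigenvalueAt (gamma H k) t c z) → κ ≤ weight (gamma H k) t c) →
    Group.IsVirtuallyNilpotent G ∨ c₀ * min 1 κ / (2 ^ (k + 1) * (2 * d - 1)) ≤ ρ

/-- (4) The lower bounds for `ρ` given by a subgroup generated by two short elements. -/
def TwoGenerators {G : Type*} [Group G] (S : Set G) (ρ : ℝ) : Prop :=
  ∀ (i j : ℕ) (H : Subgroup G) (x y w : H), Subgroup.closure {x, y} = ⊤ →
    Module.Finite ℤ (Additive (Abelianization (commutator H))) →
    (w : G) ∈ (insert 1 S) ^ i → (x : G) ∈ (insert 1 S) ^ j → (y : G) ∈ (insert 1 S) ^ j →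
    min (1 / 2) (Real.log (mahlerRad (commutator H) (w * (y * x)))) ≤ 3 * (i + 2 * j) * ρ

theorem result : ∃ c₀ : ℝ, 0 < c₀ ∧ ∀ (G : Type u) [Group G] (S : Set G), S.Finite → S.Nonempty →
    ∃ ρ : ℝ, Tendsto (fun n : ℕ => Real.log (Nat.card ↥(S ^ n)) / n) atTop (𝓝 ρ) ∧
      PairBounds c₀ S ρ ∧ PairExists S ρ ∧ UniformGap c₀ S ρ ∧ TwoGenerators S ρ := by
  obtain ⟨c1, hc1, hwt⟩ := Pool.Agent.N772.GG.wt_le.{u}
  have hlog2 : 0 < Real.log 2 := Real.log_pos (by norm_num)
  set c0 := min (c1 / 3) (1 / 6) with hc0def
  have hc0 : 0 < c0 := lt_min (by positivity) (by norm_num)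
  refine ⟨c0, hc0, ?_⟩
  intro G _ S hfin hne
  set ρ := Pool.Agent.H746UG.rho S with hρ
  have hρ0 : 0 ≤ ρ := Pool.Agent.N772.GG.rho_nonneg S
  have part1a : ∀ (H : Subgroup G) (N : Subgroup H) [N.Normal] (j : ℕ) (t : H) (c : N),
      ShortPair S H N j t c → min (1 / 2) (Real.log (mahlerAt N t c)) ≤ 3 * j * ρ := by
    intro H N _ j t c hp
    set y := min (1 / 2) (Real.log (mahlerAt N t c)) with hy
    rcases le_or_gt y 0 with hy0 | hy0
    · exact hy0.trans (by positivity)
    · have h1 := Pool.Agent.N772.GG.LM_bound S hfin hne H N t (t * (c : H)) hp.1 hp.2 c rfl hy0.le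
        (min_le_left _ _) (min_le_right _ _)
      linarith
  have part1 : ∀ (H : Subgroup G) (N : Subgroup H) [N.Normal] (j : ℕ) (t : H) (c : N),
      ShortPair S H N j t c →
        min (1 / 2) (Real.log (mahlerAt N t c)) ≤ 3 * j * ρ ∧
        (Module.Finite ℤ (Additive (Abelianization N)) → c0 * min 1 (weight N t c) ≤ j * ρ) := by
    intro H N _ j t c hp
    refine ⟨part1a H N j t c hp, ?_⟩
    intro hMf
    have h1 := part1a H N j t c hp
    obtain ⟨P, hP, h0⟩ := LinearMap.exists_monic_and_aeval_eq_zero ℤ (conjAb N t)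
    have h2 : c1 * weight N t c ≤ Real.log (mahlerAt N t c) :=
      hwt (conjAb N t) (Additive.ofMul (Abelianization.of c)) P hP (by rw [h0]; rfl)
    have h3 : 3 * (c0 * min 1 (weight N t c)) ≤ min (1 / 2) (Real.log (mahlerAt N t c)) := by
      apply le_min
      · have h4 : c0 * min 1 (weight N t c) ≤ c0 * 1 :=
          mul_le_mul_of_nonneg_left (min_le_left _ _) hc0.le
        have h5 : c0 ≤ 1 / 6 := min_le_right _ _
        linarith
      · rcases le_or_gt (weight N t c) 0 with h4 | h4
        · have h5 : 0 ≤ Real.log (mahlerAt N t c) := by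
            have h6 := Pool.Agent.N772.GG.log_LM (g := conjAb N t)
              (b := Additive.ofMul (Abelianization.of c)) P hP (by rw [h0]; rfl)
            have h7 : Real.log (mahlerAt N t c) = _ := h6
            rw [h7]
            exact Finset.sum_nonneg fun z _ => Real.log_nonneg (le_max_left _ _)
          have h6 : c0 * min 1 (weight N t c) ≤ 0 :=
            mul_nonpos_of_nonneg_of_nonpos hc0.le ((min_le_right _ _).trans h4)
          linarith
        · have h5 : c0 * min 1 (weight N t c) ≤ c1 / 3 * weight N t c :=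
            mul_le_mul (min_le_left _ _) (min_le_right _ _) (le_min zero_le_one h4.le)
              (by positivity)
          linarith
    linarith
  have part2 : ∀ (k d : ℕ) (H : Subgroup G), Setting k d S H →
        Group.IsVirtuallyNilpotent G ∨ Real.log 2 / (2 ^ (k + 1) * (2 * d - 1)) ≤ ρ ∨
        (Module.Finite ℤ (Additive (Abelianization (gamma H k))) ∧
          ∃ (t : H) (c : gamma H k), ShortPair S H (gamma H k) (2 ^ (k + 1) * (2 * d - 1)) t c ∧
            ∃ z : ℂ, Nontriv z ∧ EigenvalueAt (gamma H k) t c z) := by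
    intro k d H hs
    obtain ⟨hk, hgen, hH0, hHd, hnil⟩ := hs
    rcases Pool.Agent.N772.GG.exists_pair hk S hfin hne hgen H hH0 hHd hnil with
      h | h | ⟨hMf, t, c, h1, h2, z, hz0, hz, hp⟩
    · exact Or.inl h
    · exact Or.inr (Or.inl h)
    · exact Or.inr (Or.inr ⟨hMf, t, c, ⟨h1, h2⟩, z, ⟨hz0, hz⟩, hp⟩)
  refine ⟨ρ, Pool.Agent.H746UG.tendsto_rho S, part1, part2, ?_, ?_⟩
  · intro k d H κ hs hκ
    have hd : (1 : ℝ) ≤ d := by
      have h1 := hs.2.2.1
      have h2 := hs.2.2.2.1
      have : 1 ≤ d := by omega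
      exact_mod_cast this
    have hpos : (0 : ℝ) < 2 ^ (k + 1) * (2 * d - 1) := by
      have : (0 : ℝ) < 2 * d - 1 := by linarith
      positivity
    rcases part2 k d H hs with h | h | ⟨hMf, t, c, hp, z, hz, hE⟩
    · exact Or.inl h
    · right
      refine le_trans (div_le_div_of_nonneg_right ?_ hpos.le) h
      have h4 : c0 * min 1 κ ≤ c0 * 1 := mul_le_mul_of_nonneg_left (min_le_left _ _) hc0.le
      have h5 : c0 ≤ 1 / 6 := min_le_right _ _
      have h6 := Real.log_two_gt_d9
      linarith
    · right
      have h1 := (part1 H (gamma H k) _ t c hp).2 hMf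
      have h2 : c0 * min 1 κ ≤ c0 * min 1 (weight (gamma H k) t c) :=
        mul_le_mul_of_nonneg_left (min_le_min_left _ (hκ t c hp ⟨z, hz, hE⟩)) hc0.le
      have he : ((2 ^ (k + 1) * (2 * d - 1) : ℕ) : ℝ) = 2 ^ (k + 1) * (2 * d - 1) := by
        have : 1 ≤ 2 * d := by
          have : (1 : ℝ) ≤ d := hd
          have : 1 ≤ d := by exact_mod_cast this
          omega
        rw [Nat.cast_mul, Nat.cast_sub this]
        push_cast
        ring
      rw [he] at h1
      rw [div_le_iff₀ hpos, mul_comm ρ]
      exact h2.trans h1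
  · intro i j H x y w hgen hMf hw hx hy
    have hcm : (y * x)⁻¹ * (x * y) ∈ commutator H := by
      have : (y * x)⁻¹ * (x * y) = ⁅x⁻¹, y⁻¹⁆ := by rw [commutatorElement_def]; group
      rw [this]
      exact Subgroup.commutator_mem_commutator trivial trivial
    set c : commutator H := ⟨(y * x)⁻¹ * (x * y), hcm⟩ with hc
    have hsp : ShortPair S H (commutator H) (i + 2 * j) (w * (y * x)) c := by
      have e2 : w * (y * x) * (c : H) = w * (x * y) := by
        rw [hc]; group
      constructor
      · rw [Subgroup.coe_mul, Subgroup.coe_mul, pow_add, two_mul, pow_add]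
        exact Set.mul_mem_mul hw (Set.mul_mem_mul hy hx)
      · rw [e2, Subgroup.coe_mul, Subgroup.coe_mul, pow_add, two_mul, pow_add]
        exact Set.mul_mem_mul hw (Set.mul_mem_mul hx hy)
    have h1 := part1a H (commutator H) _ _ c hsp
    have h2 : mahlerAt (commutator H) (w * (y * x)) c =
        mahlerRad (commutator H) (w * (y * x)) := by
      unfold mahlerAt mahlerRad
      have h3 : {z : ℂ | EigenvalueAt (commutator H) (w * (y * x)) c z} =
          {z : ℂ | Module.End.HasEigenvalue (LinearMap.baseChange ℂ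
            (conjAb (commutator H) (w * (y * x))) :
            Module.End ℂ (ℂ ⊗[ℤ] Additive (Abelianization (commutator H)))) z} := by
        ext z
        constructor
        · intro hz
          have hzi := Pool.Agent.TH53.UG.integral_of_root _ _ hz
          exact Pool.Agent.TH53.UG.eig_of_root _ _ hz (minpoly.aeval ℤ z)
        · intro hz
          exact Pool.Agent.N772.GG.spec_of_two hgen _ c rfl hz
      rw [h3]
    rw [h2] at h1
    push_cast at h1
    exact h1

end Pool.Agent.Results.MP_d69e80_al.WholeSpectrum
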